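import Pool.Agent.U483.KR.Main
import Mathlib.Algebra.Category.ModuleCat.Basic

/-!
# Beilinson's conjecture for a singular K3 surface over `ℚ` is a statement about a dimension

`𝒞` is the category of the Chow motives and `𝓗` the category of the homological motives over `ℚ` (contravariant
convention), `A = h^2_tr(X)` the transcendental motive of a singular K3 surface `X` over `ℚ`, `f` its newform of
weight 3 and `l = L'(f, -1)`, a nonzero real number. `D` is a Chow motive (a direct factor of the motive of an abelian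
variety with complex multiplication) with the `ℓ`-adic realization of `f`, for which Deninger has constructed an element of
`H^3_M(D, ℚ(4))` whose regulator is a nonzero rational multiple of `L'(f, -1)` (weak form of Beilinson's conjecture for
Hecke characters of imaginary quadratic fields). By the Tate conjecture for these motives and Kimura's nilpotence
theorem the Chow motives `A` and `D` are isomorphic.

The result: the statement of the problem for `X` (all nonzero elements `ξ`, all generators `γ`) is true if and only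
if the rational vector space `H^3_M(X, ℚ(4))_tr` has dimension one.
-/

set_option autoImplicit false

open CategoryTheory Opposite Module Pool.Agent.U483.KR

namespace Pool.Agent.Results.MP_870c49_nt.DimensionOne

universe w x y z

/-- Motivic cohomology `H^3_M(A, ℚ(4))`, Betti homology `H_2(A, ℚ)^-` and the bilinear regulator pairing
`(γ, ξ) ↦ (2πi)^{-3} ⟨γ, reg(ξ)⟩` for Chow motives `A`, compatible with the morphisms. -/
structure Regulators (𝒞 : Type y) [Category.{z} 𝒞] where
  /-- motivic cohomology -/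
  mot : 𝒞 ⥤ ModuleCat.{0} ℚ
  /-- Betti homology -/
  hom : 𝒞ᵒᵖ ⥤ ModuleCat.{0} ℚ
  /-- the regulator pairing -/
  pair : ∀ A : 𝒞, hom.obj (op A) →ₗ[ℚ] mot.obj A →ₗ[ℚ] ℝ
  natural : ∀ {A B : 𝒞} (f : A ⟶ B) (γ : hom.obj (op B)) (ξ : mot.obj A),
    pair B γ ((mot.map f).hom ξ) = pair A ((hom.map f.op).hom γ) ξ

variable {𝒞 : Type y} [Category.{z} 𝒞]

/-- The statement of the problem for the motive `A` and the number `l = L'(A, -1)`: for all nonzero `ξ` and all generators
`γ` of `H_2(A, ℚ)^-` the regulator is a nonzero rational multiple of `l`. -/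
def Regulators.Beilinson (R : Regulators.{y, z} 𝒞) (A : 𝒞) (l : ℝ) : Prop :=
  ∀ ξ : R.mot.obj A, ξ ≠ 0 → ∀ γ : R.hom.obj (op A), Submodule.span ℚ {γ} = ⊤ →
    ∃ a : ℚ, a ≠ 0 ∧ R.pair A γ ξ = a * l

/-- Weak form of the conjecture for the motive `D`: some element `ξ` and some generator `γ` give a nonzero rational
multiple of `l` (Deninger for Hecke characters). -/
def Regulators.Weak (R : Regulators.{y, z} 𝒞) (D : 𝒞) (l : ℝ) : Prop :=
  ∃ ξ : R.mot.obj D, ∃ γ : R.hom.obj (op D), Submodule.span ℚ {γ} = ⊤ ∧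
    ∃ a : ℚ, a ≠ 0 ∧ R.pair D γ ξ = a * l

theorem weak_iso (R : Regulators.{y, z} 𝒞) {A B : 𝒞} (e : A ≅ B) {l : ℝ} (h : R.Weak A l) :
    R.Weak B l := by
  obtain ⟨ξ, γ, hγ, a, ha, h1⟩ := h
  have h4 : (R.hom.map e.hom.op).hom ((R.hom.map e.inv.op).hom γ) = γ := by
    have h2 : R.hom.map e.inv.op ≫ R.hom.map e.hom.op = 𝟙 _ := by
      rw [← R.hom.map_comp, ← op_comp, e.hom_inv_id, op_id, R.hom.map_id]
    exact congrArg (fun u => (ModuleCat.Hom.hom u) γ) h2
  refine ⟨(R.mot.map e.hom).hom ξ, (R.hom.map e.inv.op).hom γ, ?_, a, ha, ?_⟩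
  · have h5 : Function.Surjective (R.hom.map e.inv.op).hom := by
      intro y
      refine ⟨(R.hom.map e.hom.op).hom y, ?_⟩
      have h2 : R.hom.map e.hom.op ≫ R.hom.map e.inv.op = 𝟙 _ := by
        rw [← R.hom.map_comp, ← op_comp, e.inv_hom_id, op_id, R.hom.map_id]
      exact congrArg (fun u => (ModuleCat.Hom.hom u) y) h2
    have h6 := Submodule.map_span (R.hom.map e.inv.op).hom {γ}
    rw [hγ, Submodule.map_top, LinearMap.range_eq_top.2 h5, Set.image_singleton] at h6
    exact h6.symm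
  · rw [R.natural, h4, h1]

theorem result {𝓗 : Type w} [Category.{x} 𝓗] [Preadditive 𝒞] [Preadditive 𝓗]
    (R : Regulators.{y, z} 𝒞)
    -- from Chow motives to homological motives
    (π : 𝒞 ⥤ 𝓗) (hadd : π.Additive) (hfull : π.Full)
    -- the motives `h^2_tr(X)` and `D`, and the number `L'(f, -1)`
    (A D : 𝒞) (l : ℝ) (hl : l ≠ 0)
    -- Kimura
    (hA : NilpotentKernel π A) (hD : NilpotentKernel π D)
    -- the Tate conjecture
    (hT : Nonempty (π.obj A ≅ π.obj D))
    -- Deninger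
    (hW : R.Weak D l) :
    R.Beilinson A l ↔ finrank ℚ (R.mot.obj A) = 1 := by
  obtain ⟨e⟩ := hT
  obtain ⟨e'⟩ := lift_iso π hadd hfull hA hD e
  obtain ⟨ξ₁, γ₁, hγ₁, a₁, ha₁, h1⟩ := weak_iso R e'.symm hW
  have ha₁' : (a₁ : ℝ) ≠ 0 := by exact_mod_cast ha₁
  have hξ₁ : ξ₁ ≠ 0 := by
    rintro rfl
    rw [map_zero] at h1
    exact (mul_ne_zero ha₁' hl) h1.symm
  constructor
  · intro h
    refine finrank_eq_one ξ₁ hξ₁ fun ξ => ?_
    by_cases hξ : ξ = 0
    · exact ⟨0, by rw [hξ, zero_smul]⟩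
    obtain ⟨a, _, h2⟩ := h ξ hξ γ₁ hγ₁
    refine ⟨a / a₁, ?_⟩
    by_contra hne
    have h3 : ξ - (a / a₁) • ξ₁ ≠ 0 := fun h0 => hne (sub_eq_zero.1 h0).symm
    obtain ⟨b, hb, h4⟩ := h _ h3 γ₁ hγ₁
    rw [map_sub, map_smul, h2, h1, Rat.smul_def] at h4
    have hb' : (b : ℝ) ≠ 0 := by exact_mod_cast hb
    apply mul_ne_zero hb' hl
    rw [← h4]
    push_cast
    field_simp
    ring
  · intro h ξ hξ γ hγ
    obtain ⟨c, hc⟩ := (finrank_eq_one_iff_of_nonzero' ξ₁ hξ₁).1 h ξ
    have hc0 : c ≠ 0 := by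
      rintro rfl
      rw [zero_smul] at hc
      exact hξ hc.symm
    have hmem : γ ∈ Submodule.span ℚ {γ₁} := by rw [hγ₁]; trivial
    obtain ⟨d, hd⟩ := Submodule.mem_span_singleton.1 hmem
    have hγ₁0 : γ₁ ≠ 0 := by
      rintro rfl
      rw [map_zero, LinearMap.zero_apply] at h1
      exact (mul_ne_zero ha₁' hl) h1.symm
    have hd0 : d ≠ 0 := by
      rintro rfl
      rw [zero_smul] at hd
      rw [← hd, Submodule.span_zero_singleton] at hγ
      have h5 : γ₁ ∈ (⊥ : Submodule ℚ (R.hom.obj (op A))) := by rw [hγ]; trivial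
      exact hγ₁0 ((Submodule.mem_bot ℚ).1 h5)
    refine ⟨d * (c * a₁), mul_ne_zero hd0 (mul_ne_zero hc0 ha₁), ?_⟩
    rw [← hc, ← hd]
    simp only [map_smul, LinearMap.smul_apply, h1, Rat.smul_def]
    push_cast
    ring

end Pool.Agent.Results.MP_870c49_nt.DimensionOne
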