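import Pool.Agent.U483.KR.Main
import Mathlib.Algebra.Category.ModuleCat.Basic

/-!
# Beilinson's conjecture for singular K3 surfaces over `ℚ` depends only on the newform

`𝒞` is the category of the Chow motives and `𝓗` the category of the homological motives over `ℚ` (rational coefficients,
contravariant convention), `π : 𝒞 ⥤ 𝓗` is the natural functor, `S` is the set of the singular K3 surfaces over `ℚ` and
`tr X` the Chow motive `h^2_tr(X)`. `form X` is the newform `f` of weight 3 with `L(h^2_tr(X), s) = L(f, s)` (Livné).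
The structure `K3Motives` lists the facts which are used: the functor is full, the endomorphisms of `h^2_tr(X)` which are
homologically trivial are nilpotent (Kimura: the motive of a singular K3 surface is finite-dimensional, by Shioda-Inose),
and the Tate conjecture for products of two singular K3 surfaces (Shioda-Inose and products of CM elliptic curves), by
which the homological motives `h^2_tr(X)`, `h^2_tr(X')` are isomorphic if the newforms agree.
`Regulators` lists motivic cohomology `H^3_M(A, ℚ(4))`, the Betti homology `H_2(A)^-` and the regulator pairing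
of a Chow motive `A`, which is compatible with morphisms.

The result: if `X` and `X'` have the same newform then the statement of the problem holds for `X` if and only if it holds
for `X'`. So the conjecture is true for all singular K3 surfaces over `ℚ` if and only if it is true for one
surface for each newform.
-/

set_option autoImplicit false

open CategoryTheory Opposite Pool.Agent.U483.KR

namespace Pool.Agent.Results.MP_870c49_nt.OneSurfacePerNewform

universe w x y z

/-- The Chow motives `h^2_tr(X)` of the singular K3 surfaces `X` over `ℚ` and their newforms. -/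
structure K3Motives (𝒞 : Type y) [Category.{z} 𝒞] [Preadditive 𝒞] (𝓗 : Type w) [Category.{x} 𝓗]
    [Preadditive 𝓗] (S N : Type) where
  /-- from Chow motives to homological motives -/
  π : 𝒞 ⥤ 𝓗
  additive : π.Additive
  full : π.Full
  /-- the Chow motive `h^2_tr(X)` -/
  tr : S → 𝒞
  kimura : ∀ X : S, NilpotentKernel π (tr X)
  /-- the newform of `X` -/
  form : S → N
  tate : ∀ X X' : S, form X = form X' → Nonempty (π.obj (tr X) ≅ π.obj (tr X'))

/-- Motivic cohomology `H^3_M(A, ℚ(4))`, Betti homology `H_2(A, ℚ)^-` and the regulator pairing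
`(γ, ξ) ↦ (2πi)^{-3} ⟨γ, reg(ξ)⟩` for Chow motives `A`. -/
structure Regulators (𝒞 : Type y) [Category.{z} 𝒞] where
  /-- motivic cohomology -/
  mot : 𝒞 ⥤ ModuleCat.{0} ℚ
  /-- Betti homology -/
  hom : 𝒞ᵒᵖ ⥤ ModuleCat.{0} ℚ
  /-- the regulator pairing -/
  pair : ∀ A : 𝒞, hom.obj (op A) → mot.obj A → ℝ
  natural : ∀ {A B : 𝒞} (f : A ⟶ B) (γ : hom.obj (op B)) (ξ : mot.obj A),
    pair B γ ((mot.map f).hom ξ) = pair A ((hom.map f.op).hom γ) ξ

/-- The statement of the problem for the motive `A` and the number `l = L'(A, -1)`: for all nonzero `ξ` and all generators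
`γ` of `H_2(A, ℚ)^-` the regulator is a nonzero rational multiple of `l`. -/
def Regulators.Beilinson {𝒞 : Type y} [Category.{z} 𝒞] (R : Regulators.{y, z} 𝒞) (A : 𝒞) (l : ℝ) : Prop :=
  ∀ ξ : R.mot.obj A, ξ ≠ 0 → ∀ γ : R.hom.obj (op A), Submodule.span ℚ {γ} = ⊤ →
    ∃ a : ℚ, a ≠ 0 ∧ R.pair A γ ξ = a * l

theorem beilinson_iso {𝒞 : Type y} [Category.{z} 𝒞] (R : Regulators.{y, z} 𝒞) {A B : 𝒞} (e : A ≅ B)
    {l : ℝ} (h : R.Beilinson A l) : R.Beilinson B l := by
  intro ξ hξ γ hγ
  have h1 : (R.mot.map e.hom).hom ((R.mot.map e.inv).hom ξ) = ξ := by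
    have h2 : R.mot.map e.inv ≫ R.mot.map e.hom = 𝟙 _ := by
      rw [← R.mot.map_comp, e.inv_hom_id, R.mot.map_id]
    exact congrArg (fun u => (ModuleCat.Hom.hom u) ξ) h2
  have h3 : (R.mot.map e.inv).hom ξ ≠ 0 := by
    intro h0
    rw [h0, map_zero] at h1
    exact hξ h1.symm
  have h4 : Submodule.span ℚ {(R.hom.map e.hom.op).hom γ} = ⊤ := by
    have h5 : Function.Surjective (R.hom.map e.hom.op).hom := by
      intro y
      refine ⟨(R.hom.map e.inv.op).hom y, ?_⟩
      have h2 : R.hom.map e.inv.op ≫ R.hom.map e.hom.op = 𝟙 _ := by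
        rw [← R.hom.map_comp, ← op_comp, e.hom_inv_id, op_id, R.hom.map_id]
      exact congrArg (fun u => (ModuleCat.Hom.hom u) y) h2
    have h6 := Submodule.map_span (R.hom.map e.hom.op).hom {γ}
    rw [hγ, Submodule.map_top, LinearMap.range_eq_top.2 h5, Set.image_singleton] at h6
    exact h6.symm
  obtain ⟨a, ha, h7⟩ := h _ h3 _ h4
  refine ⟨a, ha, ?_⟩
  rw [← h7, ← R.natural e.hom, h1]

theorem result (𝒞 : Type y) [Category.{z} 𝒞] [Preadditive 𝒞] (𝓗 : Type w) [Category.{x} 𝓗]
    [Preadditive 𝓗] (S N : Type) (M : K3Motives.{w, x, y, z} 𝒞 𝓗 S N)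
    (R : Regulators.{y, z} 𝒞)
    -- the number `L'(f, -1)`
    (l : N → ℝ) :
    -- the statement depends only on the newform
    (∀ X X' : S, M.form X = M.form X' →
      (R.Beilinson (M.tr X) (l (M.form X)) ↔ R.Beilinson (M.tr X') (l (M.form X')))) ∧
    -- one surface for each newform suffices
    ∀ T : Set S, (∀ X : S, ∃ X' ∈ T, M.form X' = M.form X) →
      (∀ X' ∈ T, R.Beilinson (M.tr X') (l (M.form X'))) →
      ∀ X : S, R.Beilinson (M.tr X) (l (M.form X)) := by
  have key : ∀ X X' : S, M.form X = M.form X' →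
      R.Beilinson (M.tr X) (l (M.form X)) → R.Beilinson (M.tr X') (l (M.form X')) := by
    intro X X' h h1
    obtain ⟨e⟩ := M.tate X X' h
    obtain ⟨e'⟩ := lift_iso M.π M.additive M.full (M.kimura X) (M.kimura X') e
    rw [← h]
    exact beilinson_iso R e' h1
  refine ⟨fun X X' h => ⟨key X X' h, key X' X h.symm⟩, fun T hT h1 X => ?_⟩
  obtain ⟨X', h2, h3⟩ := hT X
  exact key X' X h3 (h1 X' h2)

end Pool.Agent.Results.MP_870c49_nt.OneSurfacePerNewform
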